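import Pool.Agent.R100.DC.F1

/-! MP_9c5a5c_co (helper52): graphs with two vertices of moderate degree at distance at least 3
split. -/

set_option autoImplicit false

namespace H52.DP

open Finset R100DC

variable {V : Type} [Fintype V] [DecidableEq V]

lemma A_symm (G : SimpleGraph V) (a b : V) : A G a b = A G b a := by
  unfold A
  by_cases h : G.Adj a b
  · simp [h, h.symm]
  · have h' : ¬ G.Adj b a := fun k => h k.symm
    simp [h, h']

lemma A_self (G : SimpleGraph V) (a : V) : A G a a = 0 := by simp [A]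

lemma A_nonneg (G : SimpleGraph V) (a b : V) : 0 ≤ A G a b := by
  unfold A
  split_ifs <;> norm_num

lemma A_cases (G : SimpleGraph V) (a b : V) :
    (G.Adj a b ∧ A G a b = 1) ∨ (¬ G.Adj a b ∧ A G a b = 0) := by
  by_cases h : G.Adj a b
  · left; simp [A, h]
  · right; simp [A, h]

lemma E2_compl (G : SimpleGraph V) (S : Finset V) :
    E2 G Sᶜ = E2 G univ - 2 * ∑ a ∈ S, d G a + E2 G S := by
  have h1 : ∀ a, ∑ b ∈ Sᶜ, A G a b = d G a - ∑ b ∈ S, A G a b := by
    intro a
    unfold d
    rw [← Finset.sum_add_sum_compl S (fun b => A G a b)]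
    ring
  have h2 : E2 G univ = ∑ a ∈ S, d G a + ∑ a ∈ Sᶜ, d G a := by
    unfold E2
    rw [Finset.sum_add_sum_compl]
    rfl
  have h3 : ∑ a ∈ Sᶜ, ∑ b ∈ S, A G a b = ∑ a ∈ S, d G a - E2 G S := by
    rw [Finset.sum_comm]
    unfold E2
    rw [← Finset.sum_sub_distrib]
    refine Finset.sum_congr rfl fun b _ => ?_
    rw [← h1 b]
    exact Finset.sum_congr rfl fun a _ => A_symm G a b
  unfold E2
  rw [Finset.sum_congr rfl (fun a _ => h1 a), Finset.sum_sub_distrib, h3]
  have h4 : ∑ a, ∑ b, A G a b = E2 G univ := rfl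
  have h5 : ∑ a ∈ S, ∑ b ∈ S, A G a b = E2 G S := rfl
  rw [h4, h5, h2]
  ring

lemma single (G : SimpleGraph V) (hG : ¬ Splits G) (x y : V) (hxy : x ≠ y) :
    E2 G univ < 2 * (Fintype.card V : ℚ) * d G x := by
  by_contra hcon
  push Not at hcon
  apply hG
  refine ⟨{x}, ⟨x, by simp⟩, ⟨y, by simp [hxy.symm]⟩, ?_⟩
  have h0 : E2 G {x} = 0 := by simp [E2, A_self]
  rw [E2_compl, h0, Finset.card_compl, Finset.card_singleton, Finset.sum_singleton]
  have hp : 2 ≤ Fintype.card V := by
    have : ({x, y} : Finset V).card ≤ Fintype.card V := Finset.card_le_univ _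
    rwa [Finset.card_pair hxy] at this
  have hp' : ((Fintype.card V - 1 : ℕ) : ℚ) = (Fintype.card V : ℚ) - 1 := by
    rw [Nat.cast_sub (by omega)]; simp
  rw [hp']
  have h2 : (2 : ℚ) ≤ (Fintype.card V : ℚ) := by exact_mod_cast hp
  have h3 : (0 : ℚ) < (Fintype.card V : ℚ) - 1 := by linarith
  have h4 : (0 : ℚ) < (Fintype.card V : ℚ) := by linarith
  rw [zero_div, zero_add, div_le_div_iff₀ h4 h3]
  nlinarith

lemma pair (G : SimpleGraph V) (hG : ¬ Splits G) (x y z : V) (hxy : G.Adj x y) (hzx : z ≠ x)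
    (hzy : z ≠ y) :
    (Fintype.card V : ℚ) ^ 2 + 2 * E2 G univ <
      2 * (Fintype.card V : ℚ) * (d G x + d G y) := by
  by_contra hcon
  push Not at hcon
  apply hG
  refine ⟨{x, y}, ⟨x, by simp⟩, ⟨z, by simp [hzx, hzy]⟩, ?_⟩
  have hne : x ≠ y := hxy.ne
  have h0 : E2 G {x, y} = 2 := by
    have h1 : A G x y = 1 := by simp [A, hxy]
    have h2 : A G y x = 1 := by simp [A, hxy.symm]
    simp only [E2, Finset.sum_pair hne, A_self, h1, h2]
    norm_num
  rw [E2_compl, h0, Finset.card_compl, Finset.card_pair hne, Finset.sum_pair hne]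
  have hp : 3 ≤ Fintype.card V := by
    have : ({x, y, z} : Finset V).card ≤ Fintype.card V := Finset.card_le_univ _
    have h3 : ({x, y, z} : Finset V).card = 3 := by
      rw [Finset.card_eq_three]
      exact ⟨x, y, z, hne, hzx.symm, hzy.symm, rfl⟩
    omega
  have hp' : ((Fintype.card V - 2 : ℕ) : ℚ) = (Fintype.card V : ℚ) - 2 := by
    rw [Nat.cast_sub (by omega)]; simp
  rw [hp']
  have h2 : (3 : ℚ) ≤ (Fintype.card V : ℚ) := by exact_mod_cast hp
  have h3 : (0 : ℚ) < (Fintype.card V : ℚ) - 2 := by linarith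
  have h4 : (0 : ℚ) < (Fintype.card V : ℚ) := by linarith
  have h5 : (2 : ℚ) / ((2 : ℕ) : ℚ) = 1 := by norm_num
  rw [h5, ← sub_le_iff_le_add', div_sub_one h4.ne', div_le_div_iff₀ h4 h3]
  nlinarith

/-- the main counting argument -/
theorem core (G : SimpleGraph V) (u v : V) (huv : u ≠ v) (hna : ¬ G.Adj u v)
    (hno : ∀ w, ¬ (G.Adj u w ∧ G.Adj w v))
    (hu : 2 * d G u ≤ (Fintype.card V : ℚ) + 2) (hv : 2 * d G v ≤ (Fintype.card V : ℚ) + 2) :
    Splits G := by
  by_contra hG
  set p : ℚ := (Fintype.card V : ℚ) with hp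
  have hp0 : 0 < p := by
    have : 0 < Fintype.card V := Fintype.card_pos_iff.2 ⟨u⟩
    rw [hp]
    exact_mod_cast this
  set E : ℚ := E2 G univ with hE
  have hE0 : 0 ≤ E := Finset.sum_nonneg fun a _ => Finset.sum_nonneg fun b _ => A_nonneg G a b
  set m : ℚ := E / (2 * p) with hm
  have hm0 : 0 ≤ m := by positivity
  have hmE : E = 2 * p * m := by rw [hm]; field_simp
  have s : ∀ x, m < d G x := by
    intro x
    have h : ∃ y, x ≠ y := by
      by_cases h : x = u
      · exact ⟨v, by rw [h]; exact huv⟩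
      · exact ⟨u, h⟩
    obtain ⟨y, hy⟩ := h
    have h1 := single G hG x y hy
    rw [hm, div_lt_iff₀ (by positivity)]
    linarith
  set a := d G u with ha
  set b := d G v with hb
  have sa : m < a := s u
  have sb : m < b := s v
  have pu : ∀ x, G.Adj u x → p / 2 + 2 * m - a < d G x := by
    intro x hx
    have hvx : v ≠ x := fun h => hna (h ▸ hx)
    have h1 := pair G hG u x v hx huv.symm hvx
    rw [← hp, ← hE, hmE, ← ha] at h1
    have h2 : p * (p + 4 * m) < p * (2 * (a + d G x)) := by nlinarith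
    have h3 := lt_of_mul_lt_mul_left h2 hp0.le
    linarith
  have pv : ∀ x, G.Adj v x → p / 2 + 2 * m - b < d G x := by
    intro x hx
    have hux : u ≠ x := fun h => hna (h ▸ hx.symm)
    have h1 := pair G hG v x u hx huv hux
    rw [← hp, ← hE, hmE, ← hb] at h1
    have h2 : p * (p + 4 * m) < p * (2 * (b + d G x)) := by nlinarith
    have h3 := lt_of_mul_lt_mul_left h2 hp0.le
    linarith
  set g : V → ℚ := fun x => d G x - m - A G u x * (p / 2 + m - a) - A G v x * (p / 2 + m - b)
    with hg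
  have g0 : ∀ x, 0 < g x := by
    intro x
    simp only [hg]
    rcases A_cases G u x with ⟨h1, h1'⟩ | ⟨h1, h1'⟩ <;> rcases A_cases G v x with ⟨h2, h2'⟩ | ⟨h2, h2'⟩
    · exact absurd ⟨h1, h2.symm⟩ (hno x)
    · rw [h1', h2']
      have := pu x h1
      linarith
    · rw [h1', h2']
      have := pv x h2
      linarith
    · rw [h1', h2']
      have := s x
      linarith
  have gu : g u = a - m := by
    simp only [hg]
    have : A G v u = 0 := by
      rcases A_cases G v u with ⟨h, _⟩ | ⟨_, h⟩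
      · exact absurd h.symm hna
      · exact h
    rw [this, A_self]
    ring
  have gv : g v = b - m := by
    simp only [hg]
    have : A G u v = 0 := by
      rcases A_cases G u v with ⟨h, _⟩ | ⟨_, h⟩
      · exact absurd h hna
      · exact h
    rw [this, A_self]
    ring
  have hx0 : ∃ x0, G.Adj u x0 := by
    by_contra h
    push Not at h
    have : a = 0 := by
      rw [ha]
      unfold d
      refine Finset.sum_eq_zero fun x _ => ?_
      simp [A, h x]
    linarith
  obtain ⟨x0, hx0⟩ := hx0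
  have hx0u : x0 ≠ u := hx0.ne'
  have hx0v : x0 ≠ v := fun h => hna (h ▸ hx0)
  have hsum : g u + g v + g x0 ≤ ∑ x, g x := by
    have h1 : ∑ x ∈ ({u, v, x0} : Finset V), g x ≤ ∑ x, g x :=
      Finset.sum_le_sum_of_subset_of_nonneg (Finset.subset_univ _) fun x _ _ => (g0 x).le
    have h2 : ∑ x ∈ ({u, v, x0} : Finset V), g x = g u + g v + g x0 := by
      rw [Finset.sum_insert (by simp [huv, hx0u.symm]), Finset.sum_insert (by simp [hx0v.symm]),
        Finset.sum_singleton]
      ring
    linarith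
  have htot : ∑ x, g x = E - p * m - a * (p / 2 + m - a) - b * (p / 2 + m - b) := by
    simp only [hg]
    rw [Finset.sum_sub_distrib, Finset.sum_sub_distrib, Finset.sum_sub_distrib,
      ← Finset.sum_mul, ← Finset.sum_mul]
    have h1 : ∑ x, A G u x = a := rfl
    have h2 : ∑ x, A G v x = b := rfl
    have h3 : ∑ x, d G x = E := rfl
    rw [h1, h2, h3, Finset.sum_const, Finset.card_univ, nsmul_eq_mul]
  rw [gu, gv, htot, hmE] at hsum
  have k1 : 0 ≤ (a - m) * (1 + p / 2 - a) := mul_nonneg (by linarith) (by linarith)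
  have k2 : 0 ≤ (b - m) * (1 + p / 2 - b) := mul_nonneg (by linarith) (by linarith)
  have k3 := g0 x0
  nlinarith

lemma d_eq (G : SimpleGraph V) (x : V) : d G x = (({w | G.Adj x w} : Set V).ncard : ℚ) := by
  classical
  have h : ({w | G.Adj x w} : Set V) = ((univ.filter fun w => G.Adj x w : Finset V) : Set V) := by
    ext w
    simp
  rw [h, Set.ncard_coe_finset, Finset.card_filter, Nat.cast_sum]
  unfold d
  refine Finset.sum_congr rfl fun w _ => ?_
  rcases A_cases G x w with ⟨h1, h2⟩ | ⟨h1, h2⟩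
  · rw [h2]; simp [h1]
  · rw [h2]; simp [h1]

lemma deg_sum (G : SimpleGraph V) (u v : V) (huv : u ≠ v) (hna : ¬ G.Adj u v)
    (hno : ∀ w, ¬ (G.Adj u w ∧ G.Adj w v)) : d G u + d G v + 2 ≤ (Fintype.card V : ℚ) := by
  have h : ∀ x, A G u x + A G v x + ((if x = u then (1:ℚ) else 0) + if x = v then 1 else 0) ≤ 1 := by
    intro x
    by_cases h1 : x = u
    · subst h1
      have h2 : A G v x = 0 := by
        rcases A_cases G v x with ⟨h, _⟩ | ⟨_, h⟩
        · exact absurd h.symm hna
        · exact h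
      rw [h2, A_self]
      simp [huv]
    · by_cases h3 : x = v
      · subst h3
        have h2 : A G u x = 0 := by
          rcases A_cases G u x with ⟨h, _⟩ | ⟨_, h⟩
          · exact absurd h hna
          · exact h
        rw [h2, A_self]
        simp [huv.symm]
      · rcases A_cases G u x with ⟨k1, k1'⟩ | ⟨k1, k1'⟩ <;>
          rcases A_cases G v x with ⟨k2, k2'⟩ | ⟨k2, k2'⟩
        · exact absurd ⟨k1, k2.symm⟩ (hno x)
        · rw [k1', k2']; simp [h1, h3]
        · rw [k1', k2']; simp [h1, h3]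
        · rw [k1', k2']; simp [h1, h3]
  have h2 := Finset.sum_le_sum (fun x (_ : x ∈ (univ : Finset V)) => h x)
  rw [Finset.sum_add_distrib, Finset.sum_add_distrib, Finset.sum_add_distrib] at h2
  simp only [Finset.sum_ite_eq', Finset.mem_univ, if_true, Finset.sum_const, Finset.card_univ,
    nsmul_eq_mul, mul_one] at h2
  have h3 : ∑ x, A G u x = d G u := rfl
  have h4 : ∑ x, A G v x = d G v := rfl
  rw [h3, h4] at h2
  linarith

/-- one of the two degrees is large -/
lemma six_aux (G : SimpleGraph V) (hG : ¬ Splits G) (u v : V) (huv : u ≠ v) (hna : ¬ G.Adj u v)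
    (hno : ∀ w, ¬ (G.Adj u w ∧ G.Adj w v)) (hd : ∀ x, d G x ≤ 6)
    (hbig : (Fintype.card V : ℚ) + 2 < 2 * d G u) : False := by
  have hs := deg_sum G u v huv hna hno
  set p : ℕ := Fintype.card V with hp
  have hE0 : 0 ≤ E2 G univ :=
    Finset.sum_nonneg fun a _ => Finset.sum_nonneg fun b _ => A_nonneg G a b
  have hp0 : 0 < p := Fintype.card_pos_iff.2 ⟨u⟩
  have hpos : ∀ x, 1 ≤ d G x := by
    intro x
    have h : ∃ y, x ≠ y := by
      by_cases h : x = u
      · exact ⟨v, by rw [h]; exact huv⟩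
      · exact ⟨u, h⟩
    obtain ⟨y, hy⟩ := h
    have h1 := single G hG x y hy
    have h2 : 0 < d G x := by
      by_contra h
      push Not at h
      have : 2 * (Fintype.card V : ℚ) * d G x ≤ 0 := by
        apply mul_nonpos_of_nonneg_of_nonpos
        · positivity
        · exact h
      linarith
    rw [d_eq] at h2 ⊢
    exact_mod_cast h2
  -- natural numbers
  obtain ⟨a, ha⟩ : ∃ a : ℕ, d G u = a := ⟨_, d_eq G u⟩
  obtain ⟨b, hb⟩ : ∃ b : ℕ, d G v = b := ⟨_, d_eq G v⟩
  have h1 : a + b + 2 ≤ p := by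
    rw [ha, hb] at hs
    exact_mod_cast hs
  have h2 : p + 2 < 2 * a := by
    rw [ha] at hbig
    exact_mod_cast hbig
  have h3 : 1 ≤ b := by
    have := hpos v
    rw [hb] at this
    exact_mod_cast this
  have h4 : a ≤ 6 := by
    have := hd u
    rw [ha] at this
    exact_mod_cast this
  have h5 : a = 6 := by omega
  have h6 : b = 1 := by omega
  have h7 : p = 9 := by omega
  -- the edge at `v`
  obtain ⟨y, hy⟩ : ∃ y, G.Adj v y := by
    by_contra h
    push Not at h
    have : d G v = 0 := by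
      unfold d
      refine Finset.sum_eq_zero fun x _ => ?_
      simp [A, h x]
    have := hpos v
    linarith
  have huy : u ≠ y := fun h => hna (h ▸ hy.symm)
  have e1 := single G hG v u huv.symm
  have e2 := pair G hG v y u hy huv huy
  rw [← hp, h7, hb, h6] at e1 e2
  have e3 : (6 - 1) + (d G y - 1) ≤ E2 G univ - 9 := by
    have k1 : ∑ x ∈ ({u, y} : Finset V), (d G x - 1) ≤ ∑ x, (d G x - 1) :=
      Finset.sum_le_sum_of_subset_of_nonneg (Finset.subset_univ _) fun x _ _ => by
        have := hpos x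
        linarith
    rw [Finset.sum_pair huy, Finset.sum_sub_distrib, Finset.sum_const, Finset.card_univ, ← hp, h7,
      ha, h5] at k1
    have k2 : ∑ x, d G x = E2 G univ := rfl
    rw [k2] at k1
    norm_num at k1 ⊢
    linarith
  norm_num at e1 e2 e3
  linarith

theorem six (G : SimpleGraph V) (u v : V) (huv : u ≠ v) (hna : ¬ G.Adj u v)
    (hno : ∀ w, ¬ (G.Adj u w ∧ G.Adj w v)) (hd : ∀ x, d G x ≤ 6) : Splits G := by
  by_contra hG
  by_cases h1 : 2 * d G u ≤ (Fintype.card V : ℚ) + 2
  · by_cases h2 : 2 * d G v ≤ (Fintype.card V : ℚ) + 2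
    · exact hG (core G u v huv hna hno h1 h2)
    · push Not at h2
      exact six_aux G hG v u huv.symm (fun h => hna h.symm)
        (fun w hw => hno w ⟨hw.2.symm, hw.1.symm⟩) hd h2
  · push Not at h1
    exact six_aux G hG u v huv hna hno hd h1

end H52.DP
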