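import Pool.Agent.T6.H52.DP.Core
import Pool.Agent.R100.DC.F
import Pool.Agent.R100.DC.Fin

/-! MP_9c5a5c_co (helper52): transfer to the parts of an optimal partition. -/

set_option autoImplicit false

namespace H52.DP

open Finset R100DC

variable {V : Type} [Fintype V] [DecidableEq V]

/-- the graph induced on the part `S` -/
abbrev ind (G : SimpleGraph V) (S : Finset V) : SimpleGraph {x // x ∈ S} :=
  G.comap (Function.Embedding.subtype fun x => x ∈ S)

theorem transfer (G : SimpleGraph V) (S : Finset V) (hS : Splits (ind G S)) :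
    ∃ B C : Finset V, B.Nonempty ∧ C.Nonempty ∧ Disjoint B C ∧ B ∪ C = S ∧
      (edgesIn G S : ℚ) / (S.card : ℚ) ≤
        (edgesIn G B : ℚ) / (B.card : ℚ) + (edgesIn G C : ℚ) / (C.card : ℚ) := by
  obtain ⟨T, hT1, hT2, hT⟩ := hS
  refine ⟨T.map (Function.Embedding.subtype fun x => x ∈ S),
    Tᶜ.map (Function.Embedding.subtype fun x => x ∈ S), hT1.map, hT2.map, ?_, ?_, ?_⟩
  · rw [Finset.disjoint_map]
    exact disjoint_compl_right
  · rw [← Finset.map_union, Finset.union_compl]
    ext x
    simp
  · rw [F1.edgesIn_eq, F1.edgesIn_eq, F1.edgesIn_eq, Finset.card_map, Finset.card_map]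
    have h1 := F1.E2_map G S T
    have h2 := F1.E2_map G S Tᶜ
    have h3 := F1.E2_map G S univ
    have h4 : (univ : Finset {x // x ∈ S}).map (Function.Embedding.subtype fun x => x ∈ S) = S := by
      ext x
      simp
    rw [h4] at h3
    rw [h1, h2, h3, Fintype.card_coe] at hT
    have e : ∀ a b : ℚ, a / 2 / b = a / b / 2 := fun a b => by rw [div_right_comm]
    rw [e, e, e]
    linarith

theorem no_split (G : SimpleGraph V) (P : Finpartition (univ : Finset V)) (hP : Optimal G P)
    (hmax : ∀ P' : Finpartition (univ : Finset V), Optimal G P' → P'.parts.card ≤ P.parts.card)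
    (S : Finset V) (hS : S ∈ P.parts) : ¬ Splits (ind G S) := by
  intro hs
  obtain ⟨B, C, hB, hC, hBC, hu, hle⟩ := transfer G S hs
  obtain ⟨P', hP', hd⟩ := F.main G P hS hB hC hBC hu
  have h2 := hP P'
  have h3 : density G P' = density G P := by linarith
  have h4 := hmax P' (fun P'' => by rw [h3]; exact hP P'')
  omega

/-- number of neighbours of `u` in `S` -/
noncomputable def degIn (G : SimpleGraph V) (S : Finset V) (u : V) : ℕ :=
  ({w | w ∈ S ∧ G.Adj u w} : Set V).ncard

lemma d_ind (G : SimpleGraph V) (S : Finset V) (u : V) (hu : u ∈ S) :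
    d (ind G S) ⟨u, hu⟩ = (degIn G S u : ℚ) := by
  rw [d_eq]
  congr 1
  unfold degIn
  rw [← Set.ncard_image_of_injective _ Subtype.val_injective]
  congr 1
  ext w
  simp only [Set.mem_image, Set.mem_setOf_eq, SimpleGraph.comap_adj]
  constructor
  · rintro ⟨x, hx, rfl⟩
    exact ⟨x.2, hx⟩
  · rintro ⟨h1, h2⟩
    exact ⟨⟨w, h1⟩, h2, rfl⟩

theorem big (G : SimpleGraph V) (P : Finpartition (univ : Finset V)) (hP : Optimal G P)
    (hmax : ∀ P' : Finpartition (univ : Finset V), Optimal G P' → P'.parts.card ≤ P.parts.card)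
    (S : Finset V) (hS : S ∈ P.parts) (u : V) (hu : u ∈ S) (v : V) (hv : v ∈ S) (huv : u ≠ v)
    (hna : ¬ G.Adj u v) (hno : ∀ w ∈ S, ¬ (G.Adj u w ∧ G.Adj w v)) :
    S.card + 2 < 2 * max (degIn G S u) (degIn G S v) := by
  by_contra hcon
  push Not at hcon
  refine no_split G P hP hmax S hS (core (ind G S) ⟨u, hu⟩ ⟨v, hv⟩ (fun h => huv (by simpa using h))
    (fun h => hna h) (fun w hw => hno w.1 w.2 hw) ?_ ?_)
  · rw [d_ind, Fintype.card_coe]
    have := le_max_left (degIn G S u) (degIn G S v)
    have h : 2 * degIn G S u ≤ S.card + 2 := by omega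
    exact_mod_cast h
  · rw [d_ind, Fintype.card_coe]
    have := le_max_right (degIn G S u) (degIn G S v)
    have h : 2 * degIn G S v ≤ S.card + 2 := by omega
    exact_mod_cast h

theorem club (G : SimpleGraph V) (hG : ∀ x, ({w | G.Adj x w} : Set V).ncard ≤ 6)
    (P : Finpartition (univ : Finset V)) (hP : Optimal G P)
    (hmax : ∀ P' : Finpartition (univ : Finset V), Optimal G P' → P'.parts.card ≤ P.parts.card)
    (S : Finset V) (hS : S ∈ P.parts) : TwoClub G S := by
  intro u hu v hv huv
  by_contra hcon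
  push Not at hcon
  obtain ⟨hna, hno⟩ := hcon
  refine no_split G P hP hmax S hS (six (ind G S) ⟨u, hu⟩ ⟨v, hv⟩
    (fun h => huv (by simpa using h)) (fun h => hna h) (fun w hw => hno w.1 w.2 hw.1 hw.2) ?_)
  rintro ⟨x, hx⟩
  rw [d_ind]
  have h1 : degIn G S x ≤ ({w | G.Adj x w} : Set V).ncard :=
    Set.ncard_le_ncard (fun w hw => hw.2) (Set.toFinite _)
  exact_mod_cast h1.trans (hG x)

lemma exists_best (G : SimpleGraph V) : ∃ P : Finpartition (univ : Finset V), Optimal G P ∧
    ∀ P' : Finpartition (univ : Finset V), Optimal G P' → P'.parts.card ≤ P.parts.card := by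
  classical
  have hfin : Finite (Finpartition (univ : Finset V)) := by
    refine Finite.of_injective (fun P => P.parts) ?_
    intro P P' h
    exact Finpartition.ext h
  have := Fintype.ofFinite (Finpartition (univ : Finset V))
  have : Nonempty (Finpartition (univ : Finset V)) := ⟨⊥⟩
  obtain ⟨P0, hP0⟩ := Finite.exists_max (fun P : Finpartition (univ : Finset V) => density G P)
  obtain ⟨P, hP, hPmax⟩ := Finset.exists_max_image
    (Finset.univ.filter (fun P : Finpartition (univ : Finset V) => Optimal G P))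
    (fun P => P.parts.card) ⟨P0, Finset.mem_filter.mpr ⟨Finset.mem_univ _, hP0⟩⟩
  refine ⟨P, (Finset.mem_filter.mp hP).2, fun P' h => ?_⟩
  exact hPmax P' (Finset.mem_filter.mpr ⟨Finset.mem_univ _, h⟩)

end H52.DP
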